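import Pool.Agent.L7h49.WN.Def

set_option autoImplicit false

/-! Part SUM of project WN (helper49): the van der Corput sums. Class `Gr f C`: `f` is continuous and
has a supergradient `s` on `[0, 1]` with `s 0 - s 1 ≤ C`. The class is mapped to `Gr _ (C / 2)` by
`T f x = f (x / 2) + f (x / 2 + 1 / 2)`. -/

noncomputable section

namespace Pool.Agent.L7h62.WN

open Pool.Agent.L7h49.WN

lemma vdc_eq (n : ℕ) : vdc n = (vdc (n / 2) + ((n % 2 : ℕ) : ℝ)) / 2 := by
  cases n with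
  | zero => simp [vdc]
  | succ n => rw [vdc]

lemma vdc_even (n : ℕ) : vdc (2 * n) = vdc n / 2 := by
  have h1 : 2 * n / 2 = n := by omega
  have h2 : 2 * n % 2 = 0 := by omega
  rw [vdc_eq (2 * n), h1, h2]; simp

lemma vdc_odd (n : ℕ) : vdc (2 * n + 1) = (vdc n + 1) / 2 := by
  have h1 : (2 * n + 1) / 2 = n := by omega
  have h2 : (2 * n + 1) % 2 = 1 := by omega
  rw [vdc_eq (2 * n + 1), h1, h2]; simp

lemma vdc_mem (n : ℕ) : 0 ≤ vdc n ∧ vdc n < 1 := by
  induction n using Nat.strong_induction_on with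
  | _ n ih =>
    rcases Nat.eq_zero_or_pos n with rfl | hn
    · simp [vdc]
    · obtain ⟨h0, h1⟩ := ih (n / 2) (by omega)
      have h2 : n % 2 = 0 ∨ n % 2 = 1 := by omega
      rw [vdc_eq n]
      rcases h2 with h2 | h2 <;> rw [h2] <;> push_cast <;> constructor <;> linarith

def Gr (f : ℝ → ℝ) (C : ℝ) : Prop :=
  Continuous f ∧ ∃ s : ℝ → ℝ, (∀ c y : ℝ, 0 ≤ c → c ≤ 1 → 0 ≤ y → y ≤ 1 →
    f y ≤ f c + s c * (y - c)) ∧ s 0 - s 1 ≤ C

def T (f : ℝ → ℝ) : ℝ → ℝ := fun x => f (x / 2) + f (x / 2 + 1 / 2)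

lemma Gr.half {f : ℝ → ℝ} {C : ℝ} (h : Gr f C) : Gr (T f) (C / 2) := by
  obtain ⟨hc, s, hs, h01⟩ := h
  refine ⟨by unfold T; fun_prop, fun c => (s (c / 2) + s (c / 2 + 1 / 2)) / 2, ?_, ?_⟩
  · intro c y c0 c1 y0 y1
    have e1 := hs (c / 2) (y / 2) (by linarith) (by linarith) (by linarith) (by linarith)
    have e2 := hs (c / 2 + 1 / 2) (y / 2 + 1 / 2) (by linarith) (by linarith) (by linarith)
      (by linarith)
    unfold T
    have e3 : (s (c / 2) + s (c / 2 + 1 / 2)) / 2 * (y - c) =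
      s (c / 2) * (y / 2 - c / 2) + s (c / 2 + 1 / 2) * (y / 2 + 1 / 2 - (c / 2 + 1 / 2)) := by
      ring
    rw [e3]
    linarith
  · have a1 : (0 : ℝ) / 2 = 0 := by norm_num
    have a2 : (0 : ℝ) + 1 / 2 = 1 / 2 := by norm_num
    have a3 : (1 : ℝ) / 2 + 1 / 2 = 1 := by norm_num
    simp only [a1, a2, a3]
    linarith

lemma int_T {f : ℝ → ℝ} (hc : Continuous f) :
    ∫ v in (0 : ℝ)..1, T f v = 2 * ∫ v in (0 : ℝ)..1, f v := by
  unfold T
  rw [intervalIntegral.integral_add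
    ((by fun_prop : Continuous fun x => f (x / 2)).intervalIntegrable _ _)
    ((by fun_prop : Continuous fun x => f (x / 2 + 1 / 2)).intervalIntegrable _ _),
    intervalIntegral.integral_comp_div f (by norm_num : (2 : ℝ) ≠ 0),
    intervalIntegral.integral_comp_div_add f (by norm_num : (2 : ℝ) ≠ 0) (1 / 2)]
  have a1 : (0 : ℝ) / 2 = 0 := by norm_num
  have a2 : (0 : ℝ) + 1 / 2 = 1 / 2 := by norm_num
  have a3 : (1 : ℝ) / 2 + 1 / 2 = 1 := by norm_num
  rw [a1, a2, a3, smul_eq_mul, smul_eq_mul, ← mul_add,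
    intervalIntegral.integral_add_adjacent_intervals (hc.intervalIntegrable _ _)
      (hc.intervalIntegrable _ _)]

lemma Gr.bound {f : ℝ → ℝ} {C : ℝ} (h : Gr f C) {x : ℝ} (x0 : 0 ≤ x) (x1 : x ≤ 1) :
    |f x + f (1 - x) - 2 * ∫ v in (0 : ℝ)..1, f v| ≤ C / 2 := by
  obtain ⟨hc, s, hs, h01⟩ := h
  have hlo : ∀ y : ℝ, 0 ≤ y → y ≤ 1 → f 0 + f 1 ≤ f y + f (1 - y) := by
    intro y y0 y1
    have e1 := hs y 0 y0 y1 le_rfl zero_le_one
    have e2 := hs y 1 y0 y1 zero_le_one le_rfl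
    have e3 := hs (1 - y) 0 (by linarith) (by linarith) le_rfl zero_le_one
    have e4 := hs (1 - y) 1 (by linarith) (by linarith) zero_le_one le_rfl
    have g1 := mul_le_mul_of_nonneg_left e1 (by linarith : 0 ≤ 1 - y)
    have g2 := mul_le_mul_of_nonneg_left e2 y0
    have g3 := mul_le_mul_of_nonneg_left e3 y0
    have g4 := mul_le_mul_of_nonneg_left e4 (by linarith : 0 ≤ 1 - y)
    nlinarith
  have hhi : ∀ y : ℝ, 0 ≤ y → y ≤ 1 → f y + f (1 - y) ≤ 2 * f (1 / 2) := by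
    intro y y0 y1
    have e1 := hs (1 / 2) y (by norm_num) (by norm_num) y0 y1
    have e2 := hs (1 / 2) (1 - y) (by norm_num) (by norm_num) (by linarith) (by linarith)
    nlinarith
  have hd : 2 * f (1 / 2) - (f 0 + f 1) ≤ C / 2 := by
    have e1 := hs 0 (1 / 2) le_rfl zero_le_one (by norm_num) (by norm_num)
    have e2 := hs 1 (1 / 2) zero_le_one le_rfl (by norm_num) (by norm_num)
    linarith
  have hc' : Continuous fun y => f y + f (1 - y) := by fun_prop
  have hI : ∫ y in (0 : ℝ)..1, (f y + f (1 - y)) = 2 * ∫ v in (0 : ℝ)..1, f v := by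
    rw [intervalIntegral.integral_add (hc.intervalIntegrable _ _)
      ((by fun_prop : Continuous fun y => f (1 - y)).intervalIntegrable _ _),
      intervalIntegral.integral_comp_sub_left f 1]
    have a1 : (1 : ℝ) - 1 = 0 := by norm_num
    have a2 : (1 : ℝ) - 0 = 1 := by norm_num
    rw [a1, a2]
    ring
  have lo : f 0 + f 1 ≤ 2 * ∫ v in (0 : ℝ)..1, f v := by
    rw [← hI]
    have := intervalIntegral.integral_mono_on (μ := MeasureTheory.volume) (a := (0 : ℝ)) (b := 1)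
      (f := fun _ => f 0 + f 1) (g := fun y => f y + f (1 - y)) zero_le_one
      (continuous_const.intervalIntegrable _ _) (hc'.intervalIntegrable _ _)
      (fun y hy => hlo y hy.1 hy.2)
    simpa using this
  have hi : 2 * ∫ v in (0 : ℝ)..1, f v ≤ 2 * f (1 / 2) := by
    rw [← hI]
    have := intervalIntegral.integral_mono_on (μ := MeasureTheory.volume) (a := (0 : ℝ)) (b := 1)
      (f := fun y => f y + f (1 - y)) (g := fun _ => 2 * f (1 / 2)) zero_le_one
      (hc'.intervalIntegrable _ _) (continuous_const.intervalIntegrable _ _)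
      (fun y hy => hhi y hy.1 hy.2)
    simpa using this
  have k1 := hlo x x0 x1
  have k2 := hhi x x0 x1
  rw [abs_le]
  constructor <;> linarith

lemma sum_pairs (g : ℕ → ℝ) (k : ℕ) :
    ∑ j ∈ Finset.range (2 * k), g j = ∑ j ∈ Finset.range k, (g (2 * j) + g (2 * j + 1)) := by
  induction k with
  | zero => simp
  | succ k ih =>
    rw [show 2 * (k + 1) = 2 * k + 1 + 1 by ring, Finset.sum_range_succ, Finset.sum_range_succ, ih,
      Finset.sum_range_succ]
    ring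

theorem main (n : ℕ) : ∀ (f : ℝ → ℝ) (C : ℝ), Gr f C →
    |∑ j ∈ Finset.range n, (f (vdc j) + f (1 - vdc j) - 2 * ∫ v in (0 : ℝ)..1, f v)| ≤ C := by
  induction n using Nat.strong_induction_on with
  | _ n ih =>
    intro f C hf
    have hC : 0 ≤ C := by
      have := (abs_nonneg _).trans (hf.bound le_rfl zero_le_one)
      linarith
    rcases Nat.eq_zero_or_pos n with rfl | hn
    · simpa using hC
    have hk := ih (n / 2) (by omega) (T f) (C / 2) hf.half
    rw [int_T hf.1] at hk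
    have hpair : ∑ j ∈ Finset.range (2 * (n / 2)),
        (f (vdc j) + f (1 - vdc j) - 2 * ∫ v in (0 : ℝ)..1, f v) =
        ∑ j ∈ Finset.range (n / 2), (T f (vdc j) + T f (1 - vdc j) -
          2 * (2 * ∫ v in (0 : ℝ)..1, f v)) := by
      rw [sum_pairs]
      refine Finset.sum_congr rfl fun j _ => ?_
      rw [vdc_even, vdc_odd]
      unfold T
      have b1 : (vdc j + 1) / 2 = vdc j / 2 + 1 / 2 := by ring
      have b2 : 1 - (vdc j / 2 + 1 / 2) = (1 - vdc j) / 2 := by ring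
      have b3 : 1 - vdc j / 2 = (1 - vdc j) / 2 + 1 / 2 := by ring
      rw [b1, b2, b3]
      ring
    rw [← hpair] at hk
    have hn2 : n = 2 * (n / 2) ∨ n = 2 * (n / 2) + 1 := by omega
    rcases hn2 with h | h
    · rw [h]
      rw [← h] at hk ⊢
      linarith
    · rw [h, Finset.sum_range_succ]
      have e := hf.bound (vdc_mem (2 * (n / 2))).1 (vdc_mem (2 * (n / 2))).2.le
      refine (abs_add_le _ _).trans ?_
      linarith

lemma sl_le {t c : ℝ} (ht : 0 ≤ t) (hc : 0 ≤ c) :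
    sl t ≤ sl c + (t - c) / (√(1 + c ^ 2)) ^ 3 := by
  unfold sl
  obtain ⟨A, hA⟩ : ∃ A, √(1 + t ^ 2) = A := ⟨_, rfl⟩
  obtain ⟨B, hB⟩ : ∃ B, √(1 + c ^ 2) = B := ⟨_, rfl⟩
  have hA0 : 0 < A := hA ▸ Real.sqrt_pos.2 (by positivity)
  have hB0 : 0 < B := hB ▸ Real.sqrt_pos.2 (by positivity)
  have hA2 : A ^ 2 = 1 + t ^ 2 := by rw [← hA, Real.sq_sqrt (by positivity)]
  have hB2 : B ^ 2 = 1 + c ^ 2 := by rw [← hB, Real.sq_sqrt (by positivity)]
  rw [hA, hB]
  have key : t * B ^ 3 ≤ A * (c ^ 3 + t) := by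
    rw [← pow_le_pow_iff_left₀ (by positivity) (by positivity) (two_ne_zero)]
    have e1 : (t * B ^ 3) ^ 2 = t ^ 2 * (1 + c ^ 2) ^ 3 := by rw [← hB2]; ring
    have e2 : (A * (c ^ 3 + t)) ^ 2 = (1 + t ^ 2) * (c ^ 3 + t) ^ 2 := by rw [← hA2]; ring
    rw [e1, e2]
    have e3 : (1 + t ^ 2) * (c ^ 3 + t) ^ 2 - t ^ 2 * (1 + c ^ 2) ^ 3 =
      t * (t - c) ^ 2 * (t + 2 * c) + c ^ 3 * (c - t) ^ 2 * (c + 2 * t) := by ring
    have e4 : 0 ≤ t * (t - c) ^ 2 * (t + 2 * c) + c ^ 3 * (c - t) ^ 2 * (c + 2 * t) := by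
      positivity
    linarith
  have e5 : c / B + (t - c) / B ^ 3 = (c ^ 3 + t) / B ^ 3 := by
    have : c / B = c * B ^ 2 / B ^ 3 := by field_simp
    rw [this, hB2, ← add_div]
    congr 1
    ring
  rw [e5, div_le_div_iff₀ hA0 (by positivity)]
  linarith

lemma cont_F (w : ℝ) : Continuous (F w) := by
  unfold F sl
  have h : Continuous fun v : ℝ => v / 2 / √(1 + (v / 2) ^ 2) := by
    refine Continuous.div (by fun_prop) (by fun_prop) fun v => ?_
    exact (Real.sqrt_pos.2 (by positivity)).ne'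
  exact h.min continuous_const

lemma gr_F {w : ℝ} (hw : 0 ≤ w) : Gr (F w) (1 / 2) := by
  classical
  refine ⟨cont_F w, fun c => if sl (c / 2) ≤ w then 1 / 2 / (√(1 + (c / 2) ^ 2)) ^ 3 else 0, ?_, ?_⟩
  · intro c y c0 c1 y0 y1
    simp only
    by_cases h : sl (c / 2) ≤ w
    · rw [if_pos h]
      have e1 : F w c = sl (c / 2) := min_eq_left h
      have e2 : F w y ≤ sl (y / 2) := min_le_left _ _
      have e3 := sl_le (t := y / 2) (c := c / 2) (by linarith) (by linarith)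
      have e4 : 1 / 2 / (√(1 + (c / 2) ^ 2)) ^ 3 * (y - c) =
        (y / 2 - c / 2) / (√(1 + (c / 2) ^ 2)) ^ 3 := by ring
      rw [e1, e4]
      exact e2.trans e3
    · rw [if_neg h]
      have e1 : F w c = w := min_eq_right (le_of_not_ge h)
      have e2 : F w y ≤ w := min_le_right _ _
      rw [e1]
      linarith
  · have h0 : sl (0 / 2) ≤ w := by unfold sl; simpa using hw
    simp only
    rw [if_pos h0]
    have h1 : 0 ≤ (if sl (1 / 2) ≤ w then (1 : ℝ) / 2 / (√(1 + (1 / 2) ^ 2)) ^ 3 else 0) := by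
      split_ifs
      · positivity
      · exact le_rfl
    have h2 : (1 : ℝ) / 2 / (√(1 + (0 / 2) ^ 2)) ^ 3 = 1 / 2 := by simp
    rw [h2]
    linarith

theorem s_SUM : Pool.Agent.L7h49.WN.S_SUM := by
  refine ⟨vdc_mem, fun w hw _ n => ?_⟩
  have := main n (F w) (1 / 2) (gr_F hw)
  have e : J w = ∫ v in (0 : ℝ)..1, F w v := rfl
  rw [e]
  linarith

end Pool.Agent.L7h62.WN
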